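import Pool.Agent.N837.LP.GenW

set_option autoImplicit false

/-!
# A positive proportion of the even numbers have only large indices in all types up to `(J, J)`

For all `A ≥ 1`, `0 < η ≤ 1` and `J`, for every large `X` a positive proportion of the even `N` in
`(X, X + X ^ η]` is such that in every representation `N = ᵃp_x + ᵇp_y` with `a, b ≤ J` both indices
`x` and `y` exceed `A log X`.
-/

namespace Pool.Agent.Results.MP_778b46_nt.LargeIndices

/-- the `x`-th `a`-prime -/
noncomputable def ipr (a x : ℕ) : ℕ := Nat.iterate (fun k : ℕ => Nat.nth Nat.Prime (k - 1)) (a + 1) x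

theorem ipr_prime (a x : ℕ) : (ipr a x).Prime := by
  unfold ipr
  rw [Function.iterate_succ_apply']
  exact Nat.prime_nth_prime _

theorem result : ∃ C : ℝ, 0 < C ∧ ∀ A η : ℝ, 1 ≤ A → 0 < η → η ≤ 1 → ∀ J : ℕ,
    ∃ X₀ : ℝ, ∀ X : ℝ, X₀ ≤ X →
    X ^ η * Real.exp (-Real.exp (C * (J + 1) * A / η)) ≤
      (({N : ℕ | Even N ∧ X < N ∧ (N : ℝ) ≤ X + X ^ η ∧
        ∀ a b x y : ℕ, a ≤ J → b ≤ J → 0 < x → 0 < y → ipr a x + ipr b y = N →
          A * Real.log X < x ∧ A * Real.log X < y}).ncard : ℝ) := by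
  classical
  obtain ⟨C, hC, h⟩ := Pool.Agent.N837.LP.genW 1 one_pos
  refine ⟨C, hC, fun A η hA hη hη1 J => ?_⟩
  have hJ1 : (1:ℝ) ≤ (J:ℝ) + 1 := by
    have : (0:ℝ) ≤ (J:ℝ) := Nat.cast_nonneg _
    linarith
  obtain ⟨X₀, hX₀⟩ := h ((J + 1) * A) η 2 (by nlinarith) hη hη1 (by norm_num)
  refine ⟨max X₀ 4, fun X hX => ?_⟩
  have hX4 : 4 ≤ X := (le_max_right _ _).trans hX
  have hX0 : 0 < X := by linarith
  have hXη : X ^ η ≤ X := by
    calc X ^ η ≤ X ^ (1:ℝ) := Real.rpow_le_rpow_of_exponent_le (by linarith) hη1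
      _ = X := Real.rpow_one X
  have hL : 1 ≤ Real.log X := by
    rw [Real.le_log_iff_exp_le hX0]
    have := Real.exp_one_lt_d9
    linarith
  set S : Finset ℕ := (((Finset.range (J + 1)) ×ˢ (Finset.Icc 1 ⌊A * Real.log X⌋₊)).image
    (fun z => ipr z.1 z.2)).filter (fun s => (s : ℝ) ≤ 2 * X) with hS
  have hScard : (S.card : ℝ) ≤ (J + 1) * A * Real.log X := by
    have e1 : S.card ≤ (J + 1) * ⌊A * Real.log X⌋₊ := by
      refine (Finset.card_filter_le _ _).trans (Finset.card_image_le.trans ?_)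
      rw [Finset.card_product, Finset.card_range, Nat.card_Icc]
      simp
    have e2 : (S.card : ℝ) ≤ ((J + 1) * ⌊A * Real.log X⌋₊ : ℝ) := by exact_mod_cast e1
    have e3 : (⌊A * Real.log X⌋₊ : ℝ) ≤ A * Real.log X := Nat.floor_le (by positivity)
    calc (S.card : ℝ) ≤ _ := e2
      _ ≤ (J + 1) * (A * Real.log X) := mul_le_mul_of_nonneg_left e3 (by linarith)
      _ = _ := by ring
  have h1 := hX₀ X ((le_max_left _ _).trans hX) (S.image (fun s : ℕ => (s : ℤ)))
    (le_trans (by exact_mod_cast Finset.card_image_le) hScard)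
    (by
      intro b hb
      rw [Finset.mem_image] at hb
      obtain ⟨m, hm, rfl⟩ := hb
      rw [hS, Finset.mem_filter] at hm
      have e1 : (m : ℝ) ≤ 2 * X := hm.2
      push_cast
      rw [abs_of_nonneg (by positivity)]
      have e2 : X ^ (2:ℝ) = X * X := by
        rw [show (2:ℝ) = ((2:ℕ):ℝ) by norm_num, Real.rpow_natCast]
        ring
      rw [e2]
      nlinarith)
    0
  have h2 : C * ((J + 1) * A) / η = C * (J + 1) * A / η := by ring
  rw [h2] at h1
  refine h1.trans (Nat.cast_le.2 (Set.ncard_le_ncard ?_ ?_))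
  · intro n hn
    obtain ⟨q1, q2, q3, q4⟩ := hn
    have key : ∀ a b x y : ℕ, a ≤ J → 0 < x → ipr a x + ipr b y = n → A * Real.log X < x := by
      intro a b x y ha hx hn
      by_contra hcon
      push Not at hcon
      have hxf : x ≤ ⌊A * Real.log X⌋₊ := Nat.le_floor hcon
      have hs : ipr a x ∈ S := by
        rw [hS, Finset.mem_filter, Finset.mem_image]
        refine ⟨⟨(a, x), ?_, rfl⟩, ?_⟩
        · rw [Finset.mem_product, Finset.mem_range, Finset.mem_Icc]
          exact ⟨by omega, hx, hxf⟩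
        · have e1 : ((ipr a x : ℕ) : ℝ) ≤ n := by
            have : ipr a x ≤ n := by omega
            exact_mod_cast this
          linarith
      obtain ⟨q, p1, p2, p3, p4⟩ := q4 _ (Finset.mem_image_of_mem _ hs)
      have e1 : (n : ℤ) - ((ipr a x : ℕ) : ℤ) = ((ipr b y : ℕ) : ℤ) := by
        rw [← hn]
        push_cast
        ring
      rw [e1] at p3 p4
      rw [abs_of_nonneg (by positivity)] at p4
      have e2 : q ∣ ipr b y := by exact_mod_cast p3
      have e3 : q < ipr b y := by exact_mod_cast p4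
      rcases (Nat.dvd_prime (ipr_prime b y)).1 e2 with e4 | e4
      · exact p1.one_lt.ne' e4
      · omega
    refine ⟨?_, q1, q2, fun a b x y ha hb hx hy hn => ⟨key a b x y ha hx hn,
      key b a y x hb hy (by rw [add_comm]; exact hn)⟩⟩
    have e1 : (n : ℤ) % 2 = 0 := by simpa using q3
    have e2 : n % 2 = 0 := by omega
    exact Nat.even_iff.2 e2
  · apply (Set.finite_Iic ⌊X + X ^ η⌋₊).subset
    intro a ha
    obtain ⟨_, _, h2, _⟩ := ha
    rw [Set.mem_Iic]
    exact Nat.le_floor h2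

end Pool.Agent.Results.MP_778b46_nt.LargeIndices
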