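import Mathlib
import Pool.Agent.N538.RP.Main
import Pool.Agent.N740.HK.Shk
import Pool.Agent.N740.HK.Sch

/-!
# Sums of two iterated prime indexed primes, in all sequential random models of the primes

The integers are decided one after the other and the conditional probability of choosing `n + 1`,
given the decisions up to `n`, is asymptotic to `1 / log n`, almost surely.  Nothing else is assumed:
no independence and no rate of convergence.  The independent model of Cramér and the random sieve of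
Hawkins are examples.
-/

set_option autoImplicit false

open MeasureTheory Filter Set ProbabilityTheory
open scoped Topology

namespace Pool.Agent.Results.MP_778b46_nt.SequentialModels

variable {Ω : Type}

/-- `A n` is the event that `n` is chosen.  The events are adapted to the filtration `ℱ` and the
conditional probability of `A (n + 1)` given `ℱ n`, times `log n`, tends to `1` almost surely. -/
def SequentialModel [m : MeasurableSpace Ω] (μ : Measure Ω) (ℱ : Filtration ℕ m) (A : ℕ → Set Ω) : Prop :=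
  (∀ n, MeasurableSet[ℱ n] (A n)) ∧
  ∀ᵐ ω ∂μ, Tendsto (fun n : ℕ => (μ[(A (n + 1)).indicator (fun _ => (1 : ℝ)) | ℱ n]) ω * Real.log n) atTop (𝓝 1)

/-- The model of Cramér: independent events, `n` is chosen with probability `1 / log n` for `n ≥ 3`. -/
def CramerModel [MeasurableSpace Ω] (μ : Measure Ω) (A : ℕ → Set Ω) : Prop :=
  (∀ n, MeasurableSet (A n)) ∧ iIndepSet A μ ∧ ∀ n : ℕ, 3 ≤ n → μ (A n) = ENNReal.ofReal (1 / Real.log n)

open Classical in
/-- The random sieve of Hawkins: `2` is chosen, and given the decisions up to `n ≥ 2` the number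
`n + 1` is chosen with probability `∏ (1 - 1 / h)`, the product over the chosen `2 ≤ h ≤ n`. -/
def HawkinsSieve [m : MeasurableSpace Ω] (μ : Measure Ω) (ℱ : Filtration ℕ m) (A : ℕ → Set Ω) : Prop :=
  (∀ n, MeasurableSet[ℱ n] (A n)) ∧ A 2 = univ ∧
  ∀ n, 2 ≤ n → μ[(A (n + 1)).indicator (fun _ => (1 : ℝ)) | ℱ n] =ᵐ[μ]
    fun ω => ∏ h ∈ Finset.Icc 2 n, if ω ∈ A h then 1 - 1 / (h : ℝ) else 1

/-- the `m`-th chosen integer, `m ≥ 1` (the analogue of the `m`-th prime) -/
noncomputable def P (S : Set ℕ) (m : ℕ) : ℕ := Nat.nth (· ∈ S) (m - 1)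

/-- the analogue of the `x`-th `i`-prime: the `(i + 1)`-fold iterate of `P S`, at `x` -/
noncomputable def Q (S : Set ℕ) (i x : ℕ) : ℕ := (P S)^[i + 1] x

open Pool.Agent.N740.HK Pool.Agent.R528.RM

lemma prod_inv (A : ℕ → Set Ω) (n : ℕ) (ω : Ω) [DecidablePred fun h => ω ∈ A h] :
    (∏ h ∈ Finset.Icc 2 n, if ω ∈ A h then 1 - 1 / (h : ℝ) else 1) = (Y A n ω)⁻¹ := by
  unfold Y
  rw [← Finset.prod_inv_distrib]
  refine Finset.prod_congr rfl fun h hh => ?_
  have h2 : (2 : ℝ) ≤ h := by exact_mod_cast (Finset.mem_Icc.1 hh).1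
  by_cases hA : ω ∈ A h
  · rw [if_pos hA, if_pos hA, inv_div]
    field_simp
  · rw [if_neg hA, if_neg hA, inv_one]

lemma log_ratio : Tendsto (fun n : ℕ => (Real.log ((n + 1 : ℕ) : ℝ))⁻¹ * Real.log n) atTop (𝓝 1) := by
  have h1 : Tendsto (fun n : ℕ => Real.log ((n : ℝ) + 1) - Real.log n) atTop (𝓝 0) := by
    have h1 : Tendsto (fun n : ℕ => 1 + (1 : ℝ) / n) atTop (𝓝 (1 + 0)) :=
      tendsto_const_nhds.add tendsto_one_div_atTop_nhds_zero_nat
    rw [add_zero] at h1
    have h2 := (Real.continuousAt_log (one_ne_zero)).tendsto.comp h1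
    rw [Real.log_one] at h2
    refine h2.congr' ?_
    filter_upwards [eventually_gt_atTop 0] with n hn
    have hn' : (0 : ℝ) < n := by exact_mod_cast hn
    show Real.log (1 + 1 / (n : ℝ)) = _
    rw [← Real.log_div (by positivity) hn'.ne']
    congr 1
    field_simp
  have h2 : Tendsto (fun n : ℕ => Real.log ((n : ℝ) + 1)) atTop atTop :=
    Real.tendsto_log_atTop.comp (tendsto_atTop_add_const_right _ _ tendsto_natCast_atTop_atTop)
  have h3 := h1.div_atTop h2
  have h4 : Tendsto (fun n : ℕ => 1 - (Real.log ((n : ℝ) + 1) - Real.log n) / Real.log ((n : ℝ) + 1)) atTop (𝓝 (1 - 0)) :=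
    tendsto_const_nhds.sub h3
  rw [sub_zero] at h4
  refine h4.congr' ?_
  filter_upwards [h2.eventually_gt_atTop 0] with n hn
  push_cast
  field_simp
  ring

theorem Q_of {S : Set ℕ} {i m : ℕ} (h : m ∈ Pool.Agent.N538.RP.JJ S (i + 1)) : ∃ x : ℕ, 1 ≤ x ∧ Q S i x = m :=
  Pool.Agent.N538.RP.JJ_val (i + 1) m h

theorem all_ab {Ω : Type} [m : MeasurableSpace Ω] {μ : Measure Ω} [IsProbabilityMeasure μ] {A : ℕ → Set Ω}
    {ℱ : Filtration ℕ m} (hs : SequentialModel μ ℱ A) :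
    ∀ᵐ ω ∂μ, ∀ a b : ℕ, ∀ᶠ N : ℕ in atTop, ∃ x y : ℕ, 1 ≤ x ∧ 1 ≤ y ∧
      Q {m | ω ∈ A m} a x ≠ Q {m | ω ∈ A m} b y ∧ Q {m | ω ∈ A m} a x + Q {m | ω ∈ A m} b y = N ∧
      (Q {m | ω ∈ A m} a x : ℝ) ≤ Real.log N ^ (2 * b + 6) := by
  obtain ⟨hA, hd⟩ := hs
  rw [ae_all_iff]; intro a
  rw [ae_all_iff]; intro b
  filter_upwards [Pool.Agent.N538.RP.repr hA hd a b] with ω hω
  filter_upwards [hω] with N hN
  obtain ⟨u, v, hu, hv, h1, h2, h3⟩ := hN
  obtain ⟨x, hx, hx'⟩ := Q_of hu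
  obtain ⟨y, hy, hy'⟩ := Q_of hv
  refine ⟨x, y, hx, hy, ?_, ?_, ?_⟩
  · rw [hx', hy']
    exact h2
  · rw [hx', hy']
    exact h1
  · rw [hx']
    exact h3

end Pool.Agent.Results.MP_778b46_nt.SequentialModels

open Pool.Agent.Results.MP_778b46_nt.SequentialModels Pool.Agent.N740.HK Pool.Agent.R528.RM

/-- The random sieve of Hawkins is a sequential model, the model of Cramér is one for some filtration.
In every sequential model, almost surely: the analogue of the assertion of the question holds, and for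
all `a, b` and all large `N` (even or odd) there are `x, y ≥ 1` with `Q a x + Q b y = N`, the two summands
different and the first one at most `(log N) ^ (2 b + 6)`. -/
theorem Pool.Agent.Results.MP_778b46_nt.SequentialModels.result
    {Ω : Type} [m : MeasurableSpace Ω] (μ : Measure Ω) [IsProbabilityMeasure μ] (A : ℕ → Set Ω) :
    (CramerModel μ A → ∃ ℱ : Filtration ℕ m, SequentialModel μ ℱ A) ∧
    ∀ ℱ : Filtration ℕ m,
    (HawkinsSieve μ ℱ A → SequentialModel μ ℱ A) ∧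
    (SequentialModel μ ℱ A →
      ∀ᵐ ω ∂μ,
        (∀ a b : ℕ, b ≤ a → ∃ L : ℕ, 3 ≤ L ∧ ∀ n : ℕ, L < n → ∃ x y : ℕ, 1 ≤ x ∧ 1 ≤ y ∧
          Q {m | ω ∈ A m} a x ≠ Q {m | ω ∈ A m} b y ∧ Q {m | ω ∈ A m} a x + Q {m | ω ∈ A m} b y = 2 * n) ∧
        (∀ a b : ℕ, ∀ᶠ N : ℕ in atTop, ∃ x y : ℕ, 1 ≤ x ∧ 1 ≤ y ∧
          Q {m | ω ∈ A m} a x ≠ Q {m | ω ∈ A m} b y ∧ Q {m | ω ∈ A m} a x + Q {m | ω ∈ A m} b y = N ∧
          (Q {m | ω ∈ A m} a x : ℝ) ≤ Real.log N ^ (2 * b + 6))) := by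
  classical
  refine ⟨?_, fun ℱ => ⟨?_, ?_⟩⟩
  · rintro ⟨hA, hi, hp⟩
    refine ⟨gen hA, gen_meas hA, ?_⟩
    have h1 : ∀ᵐ ω ∂μ, ∀ n, (μ[(A (n + 1)).indicator (fun _ => (1 : ℝ)) | gen hA n]) ω =
        (μ (A (n + 1))).toReal := ae_all_iff.2 fun n => dens_gen hA hi n
    filter_upwards [h1] with ω hω
    refine log_ratio.congr' ?_
    filter_upwards [eventually_ge_atTop 2] with n hn
    rw [hω, hp (n + 1) (by omega), ENNReal.toReal_ofReal, one_div]
    have : 0 ≤ Real.log ((n + 1 : ℕ) : ℝ) := Real.log_natCast_nonneg _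
    positivity
  · rintro ⟨h1, h2, h3⟩
    have hs : Pool.Agent.N740.HK.HS μ ℱ A := ⟨h1, h2, fun n hn => by
      filter_upwards [h3 n hn] with ω hω
      rw [← prod_inv]
      exact hω⟩
    exact ⟨h1, Pool.Agent.N740.HK.hawk_dens hs⟩
  · intro hs
    filter_upwards [all_ab hs] with ω hω
    refine ⟨fun a b _ => ?_, hω⟩
    obtain ⟨L, hL⟩ := eventually_atTop.1 (hω a b)
    refine ⟨max L 3, le_max_right _ _, fun n hn => ?_⟩
    have : L < n := lt_of_le_of_lt (le_max_left _ _) hn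
    obtain ⟨x, y, h1, h2, h3, h4, _⟩ := hL (2 * n) (by omega)
    exact ⟨x, y, h1, h2, h3, h4⟩
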